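import Mathlib

set_option autoImplicit false

namespace Pool.Agent.H.MP_c522d4_al

/-- the irreducible complex characters -/
def Irr (G : Type) [Group G] : Set (G → ℂ) :=
  {χ | ∃ V : FDRep ℂ G, Representation.IsIrreducible V.ρ ∧ χ = V.character}

/-- proportion of zero entries in the character table -/
noncomputable def zprop (G : Type) [Group G] : ℝ :=
  ({x : ConjClasses G × (G → ℂ) | x.2 ∈ Irr G ∧ ∃ g, ConjClasses.mk g = x.1 ∧ x.2 g = 0}.ncard : ℝ) /
    (Nat.card (ConjClasses G) * (Irr G).ncard)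

/-- the ascending Fitting series -/
def fit (G : Type) [Group G] : ℕ → Subgroup G
  | 0 => ⊥
  | i + 1 => sSup {N : Subgroup G | N.Normal ∧ ∃ k : ℕ, (fun H => ⁅H, N⁆)^[k] N ≤ fit G i}

end Pool.Agent.H.MP_c522d4_al
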