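import Mathlib
import Pool.Agent.H.MP_c522d4_al.Defs
import Pool.Agent.H.MP_ad7422_al.Main

set_option autoImplicit false

namespace Pool.Agent.H.MP_c522d4_al

open Pool.Agent.H.MP_ad7422_al (Mn Stab schur ex_mn avg)
open RegularWreathProduct LinearMap
open scoped commutatorElement

lemma roots {ι : Type} [Fintype ι] {p : ℕ} (hp : p.Prime) (s : ι → ℂ) (h : ∀ i, s i ^ p = 1)
    (h0 : ∑ i, s i = 0) : p ∣ Fintype.card ι := by
  haveI := Fact.mk hp
  have hz := Complex.isPrimitiveRoot_exp p hp.ne_zero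
  haveI : NeZero p := ⟨hp.ne_zero⟩
  choose k _ hk using fun i => hz.eq_pow_of_pow_eq_one (h i)
  have := minpoly.isIntegrallyClosed_dvd (hz.isIntegral hp.pos)
    (p := ∑ i, Polynomial.X ^ k i) (by simpa [hk] using h0)
  rw [← Polynomial.cyclotomic_eq_minpoly hz hp.pos] at this
  have := Polynomial.eval_dvd (x := 1) this
  rw [Polynomial.eval_one_cyclotomic_prime] at this
  simpa [Polynomial.eval_finset_sum, Int.natCast_dvd_natCast] using this

variable {H : Type} [Group H] {p : ℕ}

abbrev W (p : ℕ) (H : Type) [Group H] := RegularWreathProduct (Multiplicative (ZMod p)) H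

def ι : (H → Multiplicative (ZMod p)) →* W p H where
  toFun v := ⟨v, 1⟩
  map_one' := rfl
  map_mul' _ _ := by ext <;> simp

@[simp] lemma ι_left (v : H → Multiplicative (ZMod p)) : (ι v).left = v := rfl
@[simp] lemma ι_right (v : H → Multiplicative (ZMod p)) : (ι v).right = 1 := rfl

lemma cj {f : W p H} (hf : f.right = 1) (g : W p H) :
    g⁻¹ * f * g = (inl g.right)⁻¹ * f * inl g.right := by
  ext <;> simp [hf]

lemma nonvan [Finite H] (hp : p.Prime) (hH : Nat.card H < p) {V : Type} [AddCommGroup V]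
    [Module ℂ V] [FiniteDimensional ℂ V] {ρ : Representation ℂ (W p H) V} (h : ρ.IsIrreducible)
    {f : W p H} (hf : f.right = 1) : ρ.character f ≠ 0 := fun h0 => by
  classical
  haveI : NeZero p := ⟨hp.ne_zero⟩
  haveI := Fintype.ofFinite H
  haveI := Fintype.ofFinite (W p H)
  obtain ⟨U, hU⟩ := ex_mn h (rightHom : W p H →* H).ker
  obtain ⟨U', hU'⟩ := U.exists_isCompl
  have hπ : IsProj U (U.projection U' hU') :=
    ⟨Submodule.projection_apply_mem hU', fun _ => Submodule.projection_apply_of_mem_left hU'⟩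
  set π := U.projection U' hU'
  have val : ∀ y : W p H, y.right = 1 → ∃ s : ℂ, s ^ p = 1 ∧ trace ℂ V (ρ y * π) = s * trace ℂ V π :=
    fun y hy => by
    obtain ⟨s, hs⟩ := schur hU (ρ y) (hU.2.1 _ hy) fun g (hg : g.right = 1) v _ => by
      have : y * g = g * y := by ext <;> simp [hy, hg, add_comm]
      rw [← Module.End.mul_apply, ← map_mul, this, map_mul, Module.End.mul_apply]
    obtain ⟨v, hv, v0⟩ := (Submodule.ne_bot_iff _).1 hU.1
    have e : ∀ n : ℕ, ρ (y ^ n) v = s ^ n • v := fun n => by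
      induction n with
      | zero => simp
      | succ n ih => rw [pow_succ', map_mul, Module.End.mul_apply, ih, map_smul, hs v hv, smul_smul,
          pow_succ]
    have yp : y ^ p = 1 := by
      have : y = ι y.left := by ext <;> simp [hy]
      rw [this, ← map_pow, ← map_one ι]
      congr 1
      ext
      simp
    refine ⟨s, ?_, ?_⟩
    · have : (s ^ p - 1) • v = 0 := by rw [sub_smul, ← e, yp]; simp
      exact sub_eq_zero.1 ((smul_eq_zero.1 this).resolve_right v0)
    · rw [← smul_eq_mul s, ← map_smul]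
      congr 1
      ext v
      exact hs _ (hπ.map_mem v)
  have s := avg h π f h0
  rw [Finset.sum_congr rfl fun g _ => by rw [cj hf g], ← (equivProd _ _).symm.sum_comp,
    Fintype.sum_prod_type] at s
  simp only [equivProd, Equiv.coe_fn_symm_mk, Finset.sum_const, smul_eq_zero, Finset.card_univ,
    Fintype.card_ne_zero, false_or] at s
  choose z h1 h2 using fun u : H => val ((inl u)⁻¹ * f * inl u) (by simp [hf])
  simp only [h2, ← Finset.sum_mul, mul_eq_zero] at s
  rcases s with s | s
  · exact absurd (Nat.le_of_dvd Fintype.card_pos (roots hp z h1 s)) (by simpa using hH)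
  · rw [hπ.trace] at s
    exact hU.1 (Submodule.finrank_eq_zero.1 (by exact_mod_cast s))

lemma count [Finite H] [NeZero p] :
    (ConjClasses.mk '' {g : W p H | g.right ≠ 1}).ncard * p ≤
      Nat.card H ^ 2 * Nat.card (ConjClasses (W p H)) := by
  classical
  have a : (ConjClasses.mk '' {g : W p H | g.right ≠ 1}).ncard ≤ {g : W p H | g.left 1 = 1}.ncard := by
    refine (Set.ncard_le_ncard ?_).trans (Set.ncard_image_le (f := ConjClasses.mk))
    rintro _ ⟨g, (hg : g.right ≠ 1), rfl⟩
    refine ⟨ι (Pi.mulSingle 1 (g.left 1)⁻¹) * g * (ι (Pi.mulSingle 1 (g.left 1)⁻¹))⁻¹, ?_,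
      (ConjClasses.mk_eq_mk_iff_isConj.2 (isConj_iff.2 ⟨_, rfl⟩)).symm⟩
    simp [Pi.mulSingle_apply, hg]
  have b : {g : W p H | g.left 1 = 1}.ncard * p ≤ Nat.card (W p H) := by
    have := Nat.card_le_card_of_injective
      (fun x : {g : W p H | g.left 1 = 1} × Multiplicative (ZMod p) =>
        (⟨Function.update x.1.1.left 1 x.2, x.1.1.right⟩ : W p H)) (by
        rintro ⟨⟨g, hg⟩, c⟩ ⟨⟨g', hg'⟩, c'⟩ e
        simp only [RegularWreathProduct.mk.injEq] at e
        refine Prod.ext (Subtype.ext (RegularWreathProduct.ext (funext fun x => ?_) e.2)) ?_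
        · by_cases hx : x = 1
          · exact hx ▸ hg.trans hg'.symm
          · simpa [hx] using congrFun e.1 x
        · simpa using congrFun e.1 1)
    simpa [Nat.card_prod] using this
  have c := Nat.card_le_card_of_surjective
    (fun x : H × ConjClasses (W p H) =>
      ((inl x.1)⁻¹ * Function.surjInv ConjClasses.mk_surjective x.2 * inl x.1 : W p H).left) (by
      intro v
      obtain ⟨g, hg⟩ := isConj_iff.1 (ConjClasses.mk_eq_mk_iff_isConj.1
        (Function.surjInv_eq ConjClasses.mk_surjective (ConjClasses.mk (ι v))).symm)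
      refine ⟨(g.right, ConjClasses.mk (ι v)), ?_⟩
      simp only
      rw [← cj (by simp [← hg]), ← hg]
      simp [mul_assoc])
  rw [Nat.card_congr (equivProd _ _), Nat.card_prod] at b
  rw [Nat.card_prod] at c
  nlinarith [Nat.mul_le_mul_right p a, Nat.mul_le_mul_right (Nat.card H) c]

lemma zp_le [Finite H] (hp : p.Prime) (hH : Nat.card H < p) :
    zprop (W p H) ≤ (Nat.card H : ℝ) ^ 2 / p := by
  haveI : NeZero p := ⟨hp.ne_zero⟩
  have hp' : (0 : ℝ) < p := by exact_mod_cast hp.pos
  by_cases hf : (Irr (W p H)).Finite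
  swap
  · rw [zprop, Set.Infinite.ncard hf]
    simp only [Nat.cast_zero, mul_zero, div_zero]
    positivity
  refine div_le_of_le_mul₀ (by positivity) (by positivity) ?_
  have a : {x : ConjClasses (W p H) × (W p H → ℂ) | x.2 ∈ Irr (W p H) ∧
      ∃ g, ConjClasses.mk g = x.1 ∧ x.2 g = 0} ⊆
      (ConjClasses.mk '' {g : W p H | g.right ≠ 1}) ×ˢ Irr (W p H) := by
    rintro ⟨_, _⟩ ⟨⟨V, hV, rfl⟩, g, rfl, hg⟩
    exact ⟨⟨g, fun e => nonvan hp hH hV e hg, rfl⟩, V, hV, rfl⟩
  have b := Set.ncard_le_ncard a ((Set.toFinite _).prod hf)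
  rw [Set.ncard_prod] at b
  have c := Nat.mul_le_mul_right (Irr (W p H)).ncard (count (H := H) (p := p))
  rw [div_mul_eq_mul_div, le_div_iff₀ hp']
  have := (Nat.mul_le_mul_right p b).trans ((mul_right_comm _ _ _).le.trans c)
  rw [mul_assoc] at this
  exact_mod_cast this

lemma base [Finite H] (hp : p.Prime) (hH : Nat.card H < p) {N : Subgroup (W p H)} (hN : N.Normal)
    {k : ℕ} (h : (fun K => ⁅K, N⁆)^[k] N ≤ ⊥) {g : W p H} (hg : g ∈ N) : g.right = 1 := by
  classical
  haveI := Fact.mk hp
  let T : Module.End (ZMod p) (H → ZMod p) := LinearMap.funLeft _ _ fun x => g.right⁻¹ * x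
  let j : (H → ZMod p) → W p H := fun v => ι fun x => .ofAdd (v x)
  have e : ∀ v, ⁅g, j v⁆ = j ((T - 1) v) := fun v => by
    ext <;> simp [j, T, commutatorElement_def, LinearMap.funLeft_apply, sub_eq_add_neg]
  have m : ∀ n v, j (((T - 1) ^ (n + 1)) v) ∈ (fun K => ⁅K, N⁆)^[n] N := fun n v => by
    induction n with
    | zero =>
      rw [zero_add, pow_one, ← e]
      simpa [commutatorElement_def, mul_assoc] using mul_mem hg (hN.conj_mem _ (inv_mem hg) (j v))
    | succ n ih =>
      rw [Function.iterate_succ_apply', pow_succ', Module.End.mul_apply, ← e,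
        Subgroup.commutator_comm]
      exact Subgroup.commutator_mem_commutator hg ih
  have nil : IsNilpotent (T - 1) := ⟨k + 1, by
    refine LinearMap.ext fun v => funext fun x => ?_
    simpa [j] using congrArg (fun w : W p H => w.left x) (Subgroup.mem_bot.1 (h (m k v)))⟩
  have tp : ∀ n : ℕ, ∀ v x, (T ^ n) v x = v (g.right⁻¹ ^ n * x) := fun n => by
    induction n with
    | zero => simp
    | succ n ih => intro v x; rw [pow_succ, Module.End.mul_apply, ih, pow_succ', mul_assoc]; rfl
  have ss : T.IsSemisimple := Module.End.isSemisimple_of_squarefree_aeval_eq_zero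
    (p := Polynomial.X ^ Nat.card H - 1)
    (Polynomial.X_pow_sub_one_separable_iff.2 (by
      rw [Ne, ZMod.natCast_eq_zero_iff]
      exact Nat.not_dvd_of_pos_of_lt Nat.card_pos hH)).squarefree (by
      refine LinearMap.ext fun v => funext fun x => ?_
      simp [tp])
  have z := Module.End.eq_zero_of_isNilpotent_isSemisimple nil
    (by simpa using (Module.End.isSemisimple_sub_algebraMap_iff (μ := (1 : ZMod p))).2 ss)
  have := congrFun (LinearMap.congr_fun z (Pi.single 1 1)) 1
  by_contra hne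
  simp [T, LinearMap.funLeft_apply, Pi.single_apply, hne] at this

lemma step [Finite H] (hp : p.Prime) (hH : Nat.card H < p) (i : ℕ) :
    fit (W p H) (i + 1) ≤ (fit H i).comap rightHom := by
  induction i with
  | zero => exact sSup_le fun N ⟨hN, k, h⟩ g hg => base hp hH hN h hg
  | succ i ih =>
    refine sSup_le fun N ⟨hN, k, h⟩ => Subgroup.map_le_iff_le_comap.1 (le_sSup ⟨hN.map _
      fun q => ⟨inl q, rfl⟩, k, ?_⟩)
    have : ∀ n, (fun K => ⁅K, N.map rightHom⁆)^[n] (N.map rightHom) =
        ((fun K => ⁅K, N⁆)^[n] N).map rightHom := fun n => by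
      induction n with
      | zero => rfl
      | succ n ih => simp only [Function.iterate_succ_apply', ih, Subgroup.map_commutator]
    rw [this]
    exact Subgroup.map_le_iff_le_comap.2 (h.trans ih)

theorem main (n : ℕ) : ∀ ε : ℝ, 0 < ε → ∃ (G : Type) (_ : Group G) (_ : Finite G),
    Group.IsSolvable G ∧ (∀ i < n, fit G i ≠ ⊤) ∧ zprop G ≤ ε := by
  have key : ∀ (H : Type) [Group H] [Finite H], Group.IsSolvable H → ∀ n, (∀ i < n, fit H i ≠ ⊤) →
      ∀ ε : ℝ, 0 < ε → ∃ (G : Type) (_ : Group G) (_ : Finite G),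
      Group.IsSolvable G ∧ (∀ i < n + 1, fit G i ≠ ⊤) ∧ zprop G ≤ ε := fun H _ _ hs n h ε hε => by
    obtain ⟨M, hM⟩ := exists_nat_ge ((Nat.card H : ℝ) ^ 2 / ε)
    obtain ⟨p, hl, hp⟩ := Nat.exists_infinite_primes (M + Nat.card H + 1)
    haveI := Fact.mk hp
    have hH : Nat.card H < p := by omega
    refine ⟨W p H, inferInstance, inferInstance, Group.isSolvable_of_ker_le_range ι rightHom
      fun g (hg : g.right = 1) => ⟨g.left, by ext <;> simp [hg]⟩, fun i hi e => ?_,
      (zp_le hp hH).trans ?_⟩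
    · rcases i with _ | i
      · have : ι (fun _ => .ofAdd 1) ∈ fit (W p H) 0 := e ▸ trivial
        simpa using congrArg (fun w : W p H => w.left 1) (Subgroup.mem_bot.1 this)
      · exact h i (by omega) (top_unique fun q _ => step hp hH i (e ▸ trivial : inl q ∈ _))
    · rw [div_le_iff₀ hε] at hM
      have : (M : ℝ) ≤ p := by exact_mod_cast (by omega : M ≤ p)
      rw [div_le_iff₀ (by exact_mod_cast hp.pos)]
      nlinarith
  induction n with
  | zero =>
    intro ε hε
    obtain ⟨G, _, _, a, _, c⟩ := key Unit inferInstance 0 (by simp) ε hε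
    exact ⟨G, _, ‹_›, a, by simp, c⟩
  | succ n ih =>
    obtain ⟨H, _, _, a, b, _⟩ := ih 1 one_pos
    exact key H a n b

end Pool.Agent.H.MP_c522d4_al
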